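import Mathlib

set_option autoImplicit false

/-!
Pro-`p` groups given by generators and relations.
-/

namespace Pool.Agent.V1128.Cyc

open scoped commutatorElement

section Pres

variable (p : ℕ) (X : Type) (R : Set (FreeGroup X))

/-- The normal subgroups of index a power of `p` of the free group on `X` that contain `R`. -/
abbrev Idx : Type := {N : Subgroup (FreeGroup X) // N.Normal ∧ R ⊆ N ∧ ∃ k : ℕ, N.index = p ^ k}

/-- The finite quotients of the presented group, with the discrete topology. -/
def Qt (N : Idx p X R) : Type := FreeGroup X ⧸ N.1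

instance instGroupQt (N : Idx p X R) : Group (Qt p X R N) :=
  @QuotientGroup.Quotient.group (FreeGroup X) _ N.1 N.2.1

instance (N : Idx p X R) : TopologicalSpace (Qt p X R N) := ⊥

instance (N : Idx p X R) : DiscreteTopology (Qt p X R N) := ⟨rfl⟩

/-- The projection of the free group to the quotient by `N`. -/
def toQt (N : Idx p X R) : FreeGroup X →* Qt p X R N :=
  let _ : N.1.Normal := N.2.1
  QuotientGroup.mk' N.1

/-- The diagonal map of the free group to the product of the quotients. -/
def diag : FreeGroup X →* ∀ N : Idx p X R, Qt p X R N := MonoidHom.pi fun N => toQt p X R N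

/-- The pro-`p` group presented by the generators `X` and the relators `R`: the closure of the image
of the free group in the product of its quotients by the normal subgroups of index a power of `p`
that contain `R` (the inverse limit of these quotients). -/
def ProPPres : Subgroup (∀ N : Idx p X R, Qt p X R N) := (diag p X R).range.topologicalClosure

variable {p X R}

/-- The map of the free group to the presented pro-`p` group. -/
def emb : FreeGroup X →* ProPPres p X R :=
  (diag p X R).codRestrict (ProPPres p X R) fun w =>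
    Subgroup.le_topologicalClosure _ ⟨w, rfl⟩

theorem emb_dense : Dense (Set.range (emb : FreeGroup X →* ProPPres p X R)) := by
  have h1 : DenseRange (fun w : FreeGroup X => (⟨diag p X R w, subset_closure ⟨w, rfl⟩⟩ :
      closure (Set.range (diag p X R)))) := by
    rw [DenseRange, Subtype.dense_iff]
    intro x hx
    have : Subtype.val '' Set.range (fun w : FreeGroup X => (⟨diag p X R w, subset_closure ⟨w, rfl⟩⟩ :
      closure (Set.range (diag p X R)))) = Set.range (diag p X R) := by
      rw [← Set.range_comp]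
      rfl
    rw [this]
    exact hx
  exact h1

theorem toQt_eq_one {N : Idx p X R} {w : FreeGroup X} : toQt p X R N w = 1 ↔ w ∈ N.1 := by
  let _ : N.1.Normal := N.2.1
  exact QuotientGroup.eq_one_iff w

theorem emb_rel {r : FreeGroup X} (hr : r ∈ R) : (emb r : ProPPres p X R) = 1 := by
  apply Subtype.ext
  funext N
  exact toQt_eq_one.mpr (N.2.2.1 hr)

theorem pow_mem_open {V : Subgroup (ProPPres p X R)} (hV : IsOpen (V : Set (ProPPres p X R)))
    (g : ProPPres p X R) : ∃ k : ℕ, g ^ (p ^ k) ∈ V := by
  obtain ⟨O, hO, hOV⟩ := isOpen_induced_iff.mp hV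
  have h1 : (1 : ∀ N : Idx p X R, Qt p X R N) ∈ O := by
    have : (1 : ProPPres p X R) ∈ Subtype.val ⁻¹' O := by
      rw [hOV]
      exact V.one_mem
    exact this
  obtain ⟨S, u, hu, hS⟩ := isOpen_pi_iff.mp hO 1 h1
  choose k hk using fun N : Idx p X R => N.2.2.2
  have hpow : ∀ N : Idx p X R, (g.1 N) ^ (p ^ k N) = 1 := by
    intro N
    let _ : N.1.Normal := N.2.1
    rw [← hk N]
    obtain ⟨w, hw⟩ := QuotientGroup.mk'_surjective N.1 (g.1 N)
    have h2 : (toQt p X R N w) ^ N.1.index = 1 := by
      rw [← map_pow, toQt_eq_one]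
      exact Subgroup.pow_index_mem _ _
    rw [← hw]
    exact h2
  refine ⟨∑ N ∈ S, k N, ?_⟩
  have h2 : g ^ (p ^ ∑ N ∈ S, k N) ∈ Subtype.val ⁻¹' O := by
    apply hS
    intro N hN
    have h3 : (g ^ (p ^ ∑ N ∈ S, k N) : ProPPres p X R).1 N = 1 := by
      have h4 : k N ≤ ∑ N ∈ S, k N := Finset.single_le_sum (fun _ _ => Nat.zero_le _) hN
      obtain ⟨j, hj⟩ := Nat.exists_eq_add_of_le h4
      rw [hj, pow_add, pow_mul]
      change ((g.1 N) ^ (p ^ k N)) ^ (p ^ j) = 1
      rw [hpow, one_pow]
    rw [h3]
    exact (hu N hN).2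
  rw [hOV] at h2
  exact h2

/-- Extension of homomorphisms to finite `p`-groups. -/
theorem extend {H : Type} [Group H] [Finite H] (hp : p.Prime) (hH : ∃ k : ℕ, Nat.card H = p ^ k)
    (φ : FreeGroup X →* H) (hφ : ∀ r ∈ R, φ r = 1) :
    ∃ Φ : ProPPres p X R →* H, IsLocallyConstant Φ ∧ ∀ w, Φ (emb w) = φ w := by
  have hidx : ∃ j : ℕ, φ.ker.index = p ^ j := by
    obtain ⟨k, hk⟩ := hH
    have h1 : φ.ker.index ∣ p ^ k := by
      rw [Subgroup.index_ker, ← hk]
      exact Subgroup.card_subgroup_dvd_card _
    obtain ⟨j, -, hj⟩ := (Nat.dvd_prime_pow hp).mp h1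
    exact ⟨j, hj⟩
  let N : Idx p X R := ⟨φ.ker, inferInstance, hφ, hidx⟩
  let ψ : Qt p X R N →* H := QuotientGroup.kerLift φ
  let π : ProPPres p X R →* Qt p X R N :=
    (Pi.evalMonoidHom (fun N : Idx p X R => Qt p X R N) N).comp (ProPPres p X R).subtype
  have hπ : Continuous π := (continuous_apply N).comp continuous_subtype_val
  refine ⟨ψ.comp π, ?_, fun w => rfl⟩
  have h1 : IsLocallyConstant π := IsLocallyConstant.iff_continuous _ |>.mpr hπ
  exact h1.comp ψ

end Pres

end Pool.Agent.V1128.Cyc
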