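import Mathlib
import Pool.Agent.V1128.Cyc.Pres
import Pool.Agent.V1128.Quat.Aff

set_option autoImplicit false

/-!
1-cyclotomic pro-`p` groups.
-/

namespace Pool.Agent.V1128.Cyc

open scoped commutatorElement

section Defs

variable {p : ℕ} [Fact p.Prime] {G : Type} [Group G] [TopologicalSpace G]

/-- The action of `g` on `ℤ_p(1)/p^n`: multiplication by `θ(g)` modulo `p^n`. -/
noncomputable def act (θ : G →* ℤ_[p]ˣ) (n : ℕ) (g : G) : ZMod (p ^ n) :=
  PadicInt.toZModPow n (θ g : ℤ_[p])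

/-- Continuous 1-cocycles `U → ℤ_p(1)/p^n`. -/
def IsCoc (θ : G →* ℤ_[p]ˣ) (U : Subgroup G) (n : ℕ) (c : U → ZMod (p ^ n)) : Prop :=
  IsLocallyConstant c ∧ ∀ g h : U, c (g * h) = c g + act θ n g * c h

/-- The cocycle `c : U → ℤ_p(1)/p` is, up to a coboundary, the reduction of a continuous 1-cocycle
`U → ℤ_p(1)/p^n`. -/
def Lifts (θ : G →* ℤ_[p]ˣ) (U : Subgroup G) (n : ℕ) (hn : 1 ≤ n) (c : U → ZMod (p ^ 1)) : Prop :=
  ∃ c' : U → ZMod (p ^ n), IsCoc θ U n c' ∧ ∃ a : ZMod (p ^ 1), ∀ g : U,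
    c g = ZMod.castHom (pow_dvd_pow p hn) (ZMod (p ^ 1)) (c' g) + (act θ 1 g * a - a)

/-- The pair `(G, θ)` is 1-cyclotomic: for every open subgroup `U` and every `n ≥ 1`, every
continuous 1-cocycle `c : U → ℤ_p(1)/p` is, up to a coboundary, the reduction of a continuous
1-cocycle `U → ℤ_p(1)/p^n`, that is, `H¹(U, ℤ_p(1)/p^n) → H¹(U, ℤ_p(1)/p)` is surjective. -/
def Cyclotomic (θ : G →* ℤ_[p]ˣ) : Prop :=
  ∀ U : Subgroup G, IsOpen (U : Set G) → ∀ (n : ℕ) (hn : 1 ≤ n) (c : U → ZMod (p ^ 1)), IsCoc θ U 1 c →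
    Lifts θ U n hn c

omit [TopologicalSpace G] in
theorem act_mul (θ : G →* ℤ_[p]ˣ) (n : ℕ) (g h : G) : act θ n (g * h) = act θ n g * act θ n h := by
  simp [act]

omit [TopologicalSpace G] in
theorem act_one (θ : G →* ℤ_[p]ˣ) (n : ℕ) : act θ n 1 = 1 := by
  simp [act]

end Defs

section Coc

variable {p : ℕ} [Fact p.Prime] {G : Type} [Group G] [TopologicalSpace G]
  {θ : G →* ℤ_[p]ˣ} {n : ℕ} {c : (⊤ : Subgroup G) → ZMod (p ^ n)}

theorem coc_comm (hc : IsCoc θ ⊤ n c) (x y : (⊤ : Subgroup G)) :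
    c ⁅x, y⁆ = (1 - act θ n y) * c x + (act θ n x - 1) * c y := by
  have h1 : ⁅x, y⁆ * (y * x) = x * y := by rw [commutatorElement_def]; group
  have h2 := congrArg c h1
  rw [hc.2, hc.2, hc.2] at h2
  have h3 : act θ n (⁅x, y⁆ : (⊤ : Subgroup G)) = 1 := by
    rw [act, commutatorElement_def]
    have : θ ((x * y * x⁻¹ * y⁻¹ : (⊤ : Subgroup G)) : G) = 1 := by
      simp only [Subgroup.coe_mul, Subgroup.coe_inv, map_mul, map_inv]
      rw [mul_comm (θ x) (θ y)]
      group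
    rw [this]
    simp
  rw [h3] at h2
  linear_combination h2

end Coc

section Main

variable {p : ℕ} [hp : Fact p.Prime] {G : Type} [Group G] [TopologicalSpace G] [IsTopologicalGroup G]
  {d : ℕ} (x y : Fin d → G)

/-- The properties of the group that are used. -/
structure Good (p : ℕ) {G : Type} [Group G] [TopologicalSpace G] [IsTopologicalGroup G]
  {d : ℕ} (x y : Fin d → G) : Prop where
  dense : Dense (Subgroup.closure (Set.range x ∪ Set.range y) : Set G)
  rel : ∀ i j, ⁅x i, y i⁆ = ⁅x j, y j⁆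
  pow : ∀ V : Subgroup G, IsOpen (V : Set G) → ∀ g : G, ∃ k : ℕ, g ^ (p ^ k) ∈ V
  ext : ∀ (H : Type) [Group H] [Finite H], (∃ k : ℕ, Nat.card H = p ^ k) → ∀ a b : Fin d → H,
    (∀ i j, ⁅a i, b i⁆ = ⁅a j, b j⁆) → ∃ Φ : G →* H, IsLocallyConstant Φ ∧
      (∀ i, Φ (x i) = a i) ∧ ∀ i, Φ (y i) = b i

variable {x y} (hG : Good p x y)

omit [IsTopologicalGroup G] in
theorem act_cont {θ : G →* ℤ_[p]ˣ} (hθ : Continuous θ) (n : ℕ) : IsLocallyConstant (act θ n) := by
  have h1 : IsLocallyConstant (PadicInt.toZModPow (p := p) n) := by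
    rw [IsLocallyConstant.iff_exists_open]
    intro z
    refine ⟨Metric.ball z ((p : ℝ) ^ (-(n : ℤ) + 1)), Metric.isOpen_ball,
      Metric.mem_ball_self (by have := hp.1.pos; positivity), fun w hw => ?_⟩
    rw [Metric.mem_ball, dist_eq_norm] at hw
    have h2 : w - z ∈ (Ideal.span {(p : ℤ_[p]) ^ n} : Ideal ℤ_[p]) := by
      rw [← PadicInt.norm_le_pow_iff_mem_span_pow]
      rwa [PadicInt.norm_le_pow_iff_norm_lt_pow_add_one]
    rw [← PadicInt.ker_toZModPow, RingHom.mem_ker, map_sub, sub_eq_zero] at h2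
    exact h2
  exact h1.comp_continuous (Units.continuous_val.comp hθ)

omit hp in
theorem pow_pow_eq {M : Type} [Monoid M] (z : M) (h : z ^ p = z) (k : ℕ) : z ^ (p ^ k) = z := by
  induction k with
  | zero => rw [pow_zero, pow_one]
  | succ k ih => rw [pow_succ, pow_mul, ih, h]

include hG in
/-- An orientation of a pro-`p` group is trivial modulo `p`. -/
theorem act_one_eq {θ : G →* ℤ_[p]ˣ} (hθ : Continuous θ) (g : G) : act θ 1 g = 1 := by
  let χ : G →* ZMod (p ^ 1) :=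
    { toFun := act θ 1
      map_one' := act_one θ 1
      map_mul' := act_mul θ 1 }
  have hopen : IsOpen (χ.ker : Set G) := by
    have := (act_cont hθ 1).isOpen_fiber 1
    exact this
  obtain ⟨k, hk⟩ := hG.pow _ hopen g
  have h1 : act θ 1 g ^ (p ^ k) = 1 := by
    have h2 : χ (g ^ (p ^ k)) = 1 := hk
    rwa [map_pow] at h2
  have h3 : ∀ z : ZMod (p ^ 1), z ^ p = z := by
    rw [pow_one]
    intro z
    exact ZMod.pow_card z
  rw [← h1, pow_pow_eq _ (h3 _)]

omit [TopologicalSpace G] [IsTopologicalGroup G] in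
theorem act_cast {θ : G →* ℤ_[p]ˣ} {m n : ℕ} (h : m ≤ n) (g : G) :
    ZMod.castHom (pow_dvd_pow p h) (ZMod (p ^ m)) (act θ n g) = act θ m g := by
  have := PadicInt.zmod_cast_comp_toZModPow (p := p) m n h
  exact congrArg (fun f : ℤ_[p] →+* ZMod (p ^ m) => f (θ g : ℤ_[p])) this

omit hp in
theorem mul_zero_of {m : ℕ} {u v : ZMod (p ^ (m + 1))}
    (hu : ZMod.castHom (pow_dvd_pow p (Nat.le_succ m)) (ZMod (p ^ m)) u = 0)
    (hv : ZMod.castHom (pow_dvd_pow p (Nat.succ_le_succ (Nat.zero_le m))) (ZMod (p ^ 1)) v = 0) :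
    u * v = 0 := by
  obtain ⟨a, rfl⟩ := ZMod.intCast_surjective u
  obtain ⟨b, rfl⟩ := ZMod.intCast_surjective v
  rw [map_intCast, ZMod.intCast_zmod_eq_zero_iff_dvd] at hu hv
  rw [← Int.cast_mul, ZMod.intCast_zmod_eq_zero_iff_dvd]
  push_cast at hu hv ⊢
  have h := mul_dvd_mul hu hv
  rwa [← pow_add] at h

include hG in
/-- The homomorphism to `ZMod (p ^ 1)` with given values. -/
theorem exists_hom (a b : Fin d → ZMod (p ^ 1)) : ∃ c : G → ZMod (p ^ 1), IsLocallyConstant c ∧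
    (∀ g h, c (g * h) = c g + c h) ∧ (∀ i, c (x i) = a i) ∧ ∀ i, c (y i) = b i := by
  have : NeZero (p ^ 1) := ⟨pow_ne_zero 1 hp.1.ne_zero⟩
  obtain ⟨Φ, h1, h2, h3⟩ := hG.ext (Multiplicative (ZMod (p ^ 1)))
    ⟨1, by rw [Nat.card_congr Multiplicative.toAdd, Nat.card_zmod]⟩
    (fun i => Multiplicative.ofAdd (a i)) (fun i => Multiplicative.ofAdd (b i))
    (fun i j => by
      rw [commutatorElement_eq_one_iff_mul_comm.mpr (mul_comm _ _),
        commutatorElement_eq_one_iff_mul_comm.mpr (mul_comm _ _)])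
  refine ⟨fun g => (Φ g).toAdd, h1.comp _, fun g h => ?_, fun i => ?_, fun i => ?_⟩
  · simp only [map_mul, toAdd_mul]
  · simp only [h2, toAdd_ofAdd]
  · simp only [h3, toAdd_ofAdd]

include hG in
/-- The orientation of a 1-cyclotomic pair is trivial on the generators. -/
theorem theta_gen {θ : G →* ℤ_[p]ˣ} (hθ : Continuous θ) (hcyc : Cyclotomic θ) (hd : 2 ≤ d) (m : ℕ) :
    ∀ i, act θ m (x i) = 1 ∧ act θ m (y i) = 1 := by
  induction m with
  | zero =>
    intro i
    have : Subsingleton (ZMod (p ^ 0)) := by rw [pow_zero]; infer_instance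
    exact ⟨Subsingleton.elim _ _, Subsingleton.elim _ _⟩
  | succ m ih =>
    -- the general step
    have key : ∀ a b : Fin d → ZMod (p ^ 1), ∃ c : (⊤ : Subgroup G) → ZMod (p ^ (m + 1)),
        IsCoc θ ⊤ (m + 1) c ∧
        (∀ i, ZMod.castHom (pow_dvd_pow p (Nat.succ_le_succ (Nat.zero_le m))) (ZMod (p ^ 1))
          (c ⟨x i, trivial⟩) = a i) ∧
        (∀ i, ZMod.castHom (pow_dvd_pow p (Nat.succ_le_succ (Nat.zero_le m))) (ZMod (p ^ 1))
          (c ⟨y i, trivial⟩) = b i) := by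
      intro a b
      obtain ⟨c, h1, h2, h3, h4⟩ := exists_hom hG a b
      obtain ⟨c', h5, e, h6⟩ := hcyc ⊤ isOpen_univ (m + 1) (by omega) (fun g => c g)
        ⟨h1.comp_continuous continuous_subtype_val, fun g h => by
          rw [act_one_eq hG hθ, one_mul]
          exact h2 g h⟩
      refine ⟨c', h5, fun i => ?_, fun i => ?_⟩
      · have := h6 ⟨x i, trivial⟩
        rw [act_one_eq hG hθ, one_mul, sub_self, add_zero] at this
        rw [← h3 i]
        exact this.symm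
      · have := h6 ⟨y i, trivial⟩
        rw [act_one_eq hG hθ, one_mul, sub_self, add_zero] at this
        rw [← h4 i]
        exact this.symm
    have hrel : ∀ (c : (⊤ : Subgroup G) → ZMod (p ^ (m + 1))), IsCoc θ ⊤ (m + 1) c → ∀ i j,
        (1 - act θ (m + 1) (y i)) * c ⟨x i, trivial⟩ + (act θ (m + 1) (x i) - 1) * c ⟨y i, trivial⟩ =
        (1 - act θ (m + 1) (y j)) * c ⟨x j, trivial⟩ + (act θ (m + 1) (x j) - 1) * c ⟨y j, trivial⟩ := by
      intro c hc i j
      have h1 := coc_comm hc ⟨x i, trivial⟩ ⟨y i, trivial⟩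
      have h2 := coc_comm hc ⟨x j, trivial⟩ ⟨y j, trivial⟩
      have h3 : (⁅(⟨x i, trivial⟩ : (⊤ : Subgroup G)), (⟨y i, trivial⟩ : (⊤ : Subgroup G))⁆) =
          ⁅(⟨x j, trivial⟩ : (⊤ : Subgroup G)), (⟨y j, trivial⟩ : (⊤ : Subgroup G))⁆ :=
        Subtype.ext (hG.rel i j)
      rw [h3, h2] at h1
      exact h1.symm
    have hx0 : ∀ i, ZMod.castHom (pow_dvd_pow p (Nat.le_succ m)) (ZMod (p ^ m)) (act θ (m + 1) (x i) - 1) = 0 := by
      intro i
      rw [map_sub, act_cast (Nat.le_succ m), (ih i).1, map_one, sub_self]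
    have hy0 : ∀ i, ZMod.castHom (pow_dvd_pow p (Nat.le_succ m)) (ZMod (p ^ m)) (1 - act θ (m + 1) (y i)) = 0 := by
      intro i
      rw [map_sub, act_cast (Nat.le_succ m), (ih i).2, map_one, sub_self]
    intro i
    obtain ⟨j, hj⟩ : ∃ j : Fin d, j ≠ i := by
      have : Nontrivial (Fin d) := Fin.nontrivial_iff_two_le.mpr hd
      exact exists_ne i
    constructor
    · obtain ⟨c, h1, h2, h3⟩ := key 0 (Pi.single i 1)
      have h4 := hrel c h1 i j
      rw [mul_zero_of (hy0 i) (h2 i), mul_zero_of (hy0 j) (h2 j),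
        mul_zero_of (hx0 j) (by rw [h3, Pi.single_eq_of_ne hj]), zero_add, add_zero] at h4
      have h5 := mul_zero_of (v := c ⟨y i, trivial⟩ - 1) (hx0 i) (by
        rw [map_sub, h3, Pi.single_eq_same, map_one, sub_self])
      linear_combination h4 - h5
    · obtain ⟨c, h1, h2, h3⟩ := key (Pi.single i 1) 0
      have h4 := hrel c h1 i j
      rw [mul_zero_of (hx0 i) (h3 i), mul_zero_of (hx0 j) (h3 j),
        mul_zero_of (hy0 j) (by rw [h2, Pi.single_eq_of_ne hj]), zero_add, add_zero] at h4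
      have h5 := mul_zero_of (v := c ⟨x i, trivial⟩ - 1) (hy0 i) (by
        rw [map_sub, h2, Pi.single_eq_same, map_one, sub_self])
      linear_combination h5 - h4

include hG in
/-- The orientation of a 1-cyclotomic pair is trivial. -/
theorem theta_one {θ : G →* ℤ_[p]ˣ} (hθ : Continuous θ) (hcyc : Cyclotomic θ) (hd : 2 ≤ d) (g : G) :
    θ g = 1 := by
  have h1 : ∀ i, θ (x i) = 1 := by
    intro i
    apply Units.ext
    rw [Units.val_one, ← PadicInt.ext_of_toZModPow]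
    intro n
    rw [map_one]
    exact (theta_gen hG hθ hcyc hd n i).1
  have h2 : ∀ i, θ (y i) = 1 := by
    intro i
    apply Units.ext
    rw [Units.val_one, ← PadicInt.ext_of_toZModPow]
    intro n
    rw [map_one]
    exact (theta_gen hG hθ hcyc hd n i).2
  have h3 : (Subgroup.closure (Set.range x ∪ Set.range y) : Subgroup G) ≤ θ.ker := by
    rw [Subgroup.closure_le]
    rintro _ (⟨i, rfl⟩ | ⟨i, rfl⟩)
    · exact h1 i
    · exact h2 i
  have h4 : IsClosed (θ.ker : Set G) := isClosed_singleton.preimage hθ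
  have h5 : (θ.ker : Set G) = Set.univ := by
    apply Set.eq_univ_of_univ_subset
    rw [← hG.dense.closure_eq]
    exact closure_minimal h3 h4
  have h6 : g ∈ (θ.ker : Set G) := by rw [h5]; trivial
  exact h6

end Main

end Pool.Agent.V1128.Cyc
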