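import Mathlib
import Pool.Agent.V1128.Cyc.Main

set_option autoImplicit false

/-!
The wreath product `𝔽_p ≀ (𝔽_p × 𝔽_p)` and the failure of lifting.
-/

namespace Pool.Agent.V1128.Cyc

open scoped commutatorElement
open Pool.Agent.V1128.Quat

section Sum

variable {p : ℕ} [hp : Fact p.Prime]

theorem val_add_one (a : ZMod p) : (a.val + 1 < p ∧ (a + 1).val = a.val + 1) ∨
    (a.val + 1 = p ∧ a + 1 = 0) := by
  have h1 : a.val < p := ZMod.val_lt a
  have h3 := hp.1.two_le
  rcases Nat.lt_or_ge (a.val + 1) p with h | h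
  · left
    refine ⟨h, ?_⟩
    have h2 : (1 : ZMod p).val = 1 := ZMod.val_one'' (by omega)
    rw [ZMod.val_add_of_lt, h2]
    rw [h2]
    exact h
  · right
    have h4 : a.val + 1 = p := by omega
    refine ⟨h4, ?_⟩
    have h5 : ((a.val + 1 : ℕ) : ZMod p) = 0 := by rw [h4]; exact ZMod.natCast_self p
    push_cast at h5
    rwa [ZMod.natCast_zmod_val] at h5

theorem sum_range_eq (f : ZMod p → ZMod p) : ∑ j ∈ Finset.range p, f (j : ZMod p) = ∑ z, f z := by
  symm
  apply Finset.sum_nbij' (fun z : ZMod p => z.val) (fun j : ℕ => (j : ZMod p))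
  · intro z _
    exact Finset.mem_range.mpr (ZMod.val_lt z)
  · intro j _
    exact Finset.mem_univ _
  · intro z _
    exact ZMod.natCast_zmod_val z
  · intro j hj
    exact ZMod.val_cast_of_lt (Finset.mem_range.mp hj)
  · intro z _
    rw [ZMod.natCast_zmod_val]

/-- The primitive of `a ↦ a ^ (p - 2)`. -/
def SS (a : ZMod p) : ZMod p := ∑ j ∈ Finset.range a.val, (j : ZMod p) ^ (p - 2)

theorem sum_zero : ∑ z : ZMod p, z ^ (p - 2) = 0 := by
  apply FiniteField.sum_pow_lt_card_sub_one
  rw [ZMod.card]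
  have := hp.1.two_le
  omega

theorem SS_step (a : ZMod p) : SS (a + 1) = SS a + a ^ (p - 2) := by
  rcases val_add_one a with ⟨-, h⟩ | ⟨h1, h2⟩
  · rw [SS, SS, h, Finset.sum_range_succ, ZMod.natCast_zmod_val]
  · rw [h2, SS, SS, ZMod.val_zero, Finset.sum_range_zero]
    have h3 := sum_range_eq (fun z : ZMod p => z ^ (p - 2))
    have h4 : Finset.range p = Finset.range (a.val + 1) := by rw [h1]
    rw [sum_zero, h4, Finset.sum_range_succ, ZMod.natCast_zmod_val] at h3
    exact h3.symm

/-- The combinatorial identity. -/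
theorem sum_shift {M : Type} [CommRing M] (φ Y : ZMod p × ZMod p → M) (v : ZMod p × ZMod p)
    (h : ∀ q, φ (q + v) = φ q) : ∑ q, φ q * (Y (q + v) - Y q) = 0 := by
  have h1 : ∑ q, φ q * Y (q + v) = ∑ q, φ q * Y q := by
    rw [← Equiv.sum_comp (Equiv.addRight v) (fun q => φ q * Y q)]
    apply Finset.sum_congr rfl
    intro q _
    simp only [Equiv.coe_addRight]
    rw [h]
  simp only [mul_sub, Finset.sum_sub_distrib]
  rw [h1, sub_self]

theorem val_sub_cases (a b : ZMod p) : ((a - b).val : ℤ) = a.val - b.val + if a.val < b.val then (p : ℤ) else 0 := by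
  have ha := ZMod.val_lt a
  have hb := ZMod.val_lt b
  split_ifs with h
  · have h1 : (a - b).val = a.val + p - b.val := by
      rw [← ZMod.val_cast_of_lt (show a.val + p - b.val < p by omega)]
      congr 1
      rw [Nat.cast_sub (by omega)]
      push_cast
      rw [ZMod.natCast_zmod_val, ZMod.natCast_zmod_val, ZMod.natCast_self]
      ring
    rw [h1]
    omega
  · have h1 : (a - b).val = a.val - b.val := by
      rw [← ZMod.val_cast_of_lt (show a.val - b.val < p by omega)]
      congr 1
      rw [Nat.cast_sub (by omega), ZMod.natCast_zmod_val, ZMod.natCast_zmod_val]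
    rw [h1]
    omega

theorem identity {M : Type} [CommRing M] (F Y₀ Y₁ Y₂ : ZMod p × ZMod p → M)
    (h0 : ∀ q, F q = Y₀ (q + (1, 0)) - Y₀ q) (h1 : ∀ q, F q = Y₁ (q + (0, 1)) - Y₁ q)
    (h2 : ∀ q, F q = Y₂ (q + (1, 1)) - Y₂ q) :
    (p : M) * ∑ q : ZMod p × ZMod p, (if q.1.val < q.2.val then F q else 0) = 0 := by
  have e0 : ∑ q : ZMod p × ZMod p, (q.2.val : M) * F q = 0 := by
    simp only [h0]
    exact sum_shift (fun q => (q.2.val : M)) Y₀ (1, 0) (fun q => by simp)
  have e1 : ∑ q : ZMod p × ZMod p, (q.1.val : M) * F q = 0 := by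
    simp only [h1]
    exact sum_shift (fun q => (q.1.val : M)) Y₁ (0, 1) (fun q => by simp)
  have e2 : ∑ q : ZMod p × ZMod p, ((q.1 - q.2).val : M) * F q = 0 := by
    simp only [h2]
    exact sum_shift (fun q => ((q.1 - q.2).val : M)) Y₂ (1, 1) (fun q => by
      simp)
  have e3 : ∀ q : ZMod p × ZMod p, ((q.1 - q.2).val : M) * F q = (q.1.val : M) * F q -
      (q.2.val : M) * F q + (p : M) * (if q.1.val < q.2.val then F q else 0) := by
    intro q
    have h3 := congrArg (fun z : ℤ => (z : M)) (val_sub_cases q.1 q.2)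
    simp only [Int.cast_natCast] at h3
    rw [h3]
    push_cast
    split_ifs <;> ring
  rw [Finset.mul_sum]
  simp only [e3, Finset.sum_add_distrib, Finset.sum_sub_distrib, e0, e1, sub_zero, zero_add] at e2
  exact e2

theorem sum_one : ∑ q : ZMod p × ZMod p, (if q.1.val < q.2.val then q.1 ^ (p - 2) else 0) = (1 : ZMod p) := by
  rw [Fintype.sum_prod_type]
  have h2 := hp.1.two_le
  have h1 : ∀ a : ZMod p, ∑ b : ZMod p, (if a.val < b.val then a ^ (p - 2) else 0) =
      -(a ^ (p - 1)) - a ^ (p - 2) := by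
    intro a
    rw [← Finset.sum_filter, Finset.sum_const]
    have hc : (Finset.univ.filter fun b : ZMod p => a.val < b.val).card = p - 1 - a.val := by
      have h3 : (Finset.univ.filter fun b : ZMod p => a.val < b.val).card = (Finset.Ioo a.val p).card := by
        apply Finset.card_nbij' (fun b : ZMod p => b.val) (fun j : ℕ => (j : ZMod p))
        · intro b hb
          have h4 := (Finset.mem_filter.mp hb).2
          exact Finset.mem_Ioo.mpr ⟨h4, ZMod.val_lt b⟩
        · intro j hj
          have h4 := Finset.mem_Ioo.mp hj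
          refine Finset.mem_filter.mpr ⟨Finset.mem_univ _, ?_⟩
          rw [ZMod.val_cast_of_lt h4.2]
          exact h4.1
        · intro b _
          exact ZMod.natCast_zmod_val b
        · intro j hj
          exact ZMod.val_cast_of_lt (Finset.mem_Ioo.mp hj).2
      rw [h3, Nat.card_Ioo]
      omega
    have ha := ZMod.val_lt a
    rw [hc, nsmul_eq_mul, Nat.cast_sub (by omega), Nat.cast_sub (by omega), ZMod.natCast_self,
      ZMod.natCast_zmod_val]
    have h5 : p - 1 = (p - 2) + 1 := by omega
    rw [h5, pow_succ]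
    push_cast
    ring
  simp only [h1, Finset.sum_sub_distrib, Finset.sum_neg_distrib, sum_zero, sub_zero]
  have h6 : ∑ a : ZMod p, a ^ (p - 1) = -1 := by
    have h7 : ∀ a : ZMod p, a ^ (p - 1) = if a = 0 then 0 else 1 := by
      intro a
      split_ifs with h
      · rw [h, zero_pow (by omega)]
      · exact ZMod.pow_card_sub_one_eq_one h
    simp only [h7]
    have h8 : ∀ a : ZMod p, (if a = 0 then (0 : ZMod p) else 1) = 1 - if a = 0 then 1 else 0 := by
      intro a
      split_ifs <;> ring
    simp only [h8, Finset.sum_sub_distrib, Finset.sum_const, Finset.card_univ, ZMod.card, nsmul_eq_mul,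
      mul_one, ZMod.natCast_self, Finset.sum_ite_eq', Finset.mem_univ, if_true, zero_sub]
  rw [h6, neg_neg]

end Sum

end Pool.Agent.V1128.Cyc
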