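import Mathlib
import Pool.Agent.V1128.Cyc.Wr

set_option autoImplicit false

/-!
The wreath product `𝔽_p ≀ (𝔽_p × 𝔽_p)` and the failure of lifting.
-/

namespace Pool.Agent.V1128.Cyc

open scoped commutatorElement
open Pool.Agent.V1128.Quat

section Wr

variable (p : ℕ)

/-- Functions on `(ℤ/p)²`. -/
def Fn : Type := ZMod p × ZMod p → ZMod p

instance : AddCommGroup (Fn p) := inferInstanceAs (AddCommGroup (ZMod p × ZMod p → ZMod p))

/-- The group `(ℤ/p)²` in multiplicative notation. -/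
abbrev QQ : Type := Multiplicative (ZMod p × ZMod p)

instance : DistribMulAction (QQ p) (Fn p) where
  smul q f := fun r => f (r + q.toAdd)
  one_smul f := funext fun r => congrArg f (add_zero r)
  mul_smul q₁ q₂ f := funext fun r => congrArg f (add_assoc r q₁.toAdd q₂.toAdd).symm
  smul_zero _ := rfl
  smul_add _ _ _ := rfl

variable {p}

theorem smul_apply (q : QQ p) (f : Fn p) (r : ZMod p × ZMod p) : (q • f) r = f (r + q.toAdd) := rfl

theorem add_apply' (f g : Fn p) (r : ZMod p × ZMod p) : (f + g) r = f r + g r := rfl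

theorem neg_apply' (f : Fn p) (r : ZMod p × ZMod p) : (-f) r = -f r := rfl

theorem zero_apply' (r : ZMod p × ZMod p) : (0 : Fn p) r = 0 := rfl

theorem comm_v (x : QQ p) (w : Fn p) (r : ZMod p × ZMod p) :
    (⁅(⟨0, x⟩ : Aff (Fn p) (QQ p)), (⟨w, 1⟩ : Aff (Fn p) (QQ p))⁆).v r = w (r + x.toAdd) - w r := by
  rw [commutatorElement_def]
  simp only [mul_v, mul_q, inv_v, inv_q, add_apply', smul_apply, neg_apply', zero_apply', toAdd_mul, toAdd_inv,
    toAdd_one]
  simp [sub_eq_add_neg]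

theorem comm_q (x : QQ p) (w : Fn p) :
    (⁅(⟨0, x⟩ : Aff (Fn p) (QQ p)), (⟨w, 1⟩ : Aff (Fn p) (QQ p))⁆).q = 1 := by
  rw [commutatorElement_def]
  simp only [mul_q, inv_q]
  simp

/-- The images of the `x_i`. -/
def xb (p : ℕ) (i : ℕ) : ZMod p × ZMod p := if i = 1 then (0, 1) else if i = 2 then (1, 1) else (1, 0)

/-- The images of the `y_i`, as functions. -/
def ww' (p : ℕ) [Fact p.Prime] (i : ℕ) (r : ZMod p × ZMod p) : ZMod p :=
  if i = 1 then r.2 * r.1 ^ (p - 2) else SS r.1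

/-- The images of the `y_i`. -/
def ww (p : ℕ) [Fact p.Prime] (i : ℕ) : Fn p := ww' p i

variable [hp : Fact p.Prime]

theorem ww_eq' (i : ℕ) (r : ZMod p × ZMod p) : ww' p i (r + xb p i) - ww' p i r = r.1 ^ (p - 2) := by
  by_cases h1 : i = 1
  · simp only [ww', xb, if_pos h1, Prod.fst_add, Prod.snd_add, add_zero]
    ring
  · by_cases h2 : i = 2
    · simp only [ww', xb, if_neg h1, if_pos h2, Prod.fst_add]
      rw [SS_step]
      ring
    · simp only [ww', xb, if_neg h1, if_neg h2, Prod.fst_add]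
      rw [SS_step]
      ring

theorem ww_eq (i : ℕ) (r : ZMod p × ZMod p) : ww p i (r + xb p i) - ww p i r = r.1 ^ (p - 2) :=
  ww_eq' i r

/-- The homomorphism to the wreath product. -/
theorem exists_wr {G : Type} [Group G] [TopologicalSpace G] [IsTopologicalGroup G]
    {d : ℕ} {x y : Fin d → G} (hG : Good p x y) :
    ∃ Ψ : G →* Aff (Fn p) (QQ p), IsLocallyConstant Ψ ∧
      (∀ i, Ψ (x i) = ⟨0, Multiplicative.ofAdd (xb p i)⟩) ∧ ∀ i, Ψ (y i) = ⟨ww p i, 1⟩ := by
  have _ : Finite (Fn p) := inferInstanceAs (Finite (ZMod p × ZMod p → ZMod p))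
  have _ : Finite (QQ p) := inferInstanceAs (Finite (ZMod p × ZMod p))
  let e : Aff (Fn p) (QQ p) ≃ (ZMod p × ZMod p → ZMod p) × (ZMod p × ZMod p) :=
    { toFun := fun a => (a.v, a.q.toAdd)
      invFun := fun a => ⟨a.1, Multiplicative.ofAdd a.2⟩
      left_inv := fun _ => rfl
      right_inv := fun _ => rfl }
  have _ : Finite (Aff (Fn p) (QQ p)) := Finite.of_equiv _ e.symm
  apply hG.ext
  · refine ⟨p * p + 2, ?_⟩
    rw [Nat.card_congr e, Nat.card_prod, Nat.card_eq_fintype_card, Nat.card_eq_fintype_card,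
      Fintype.card_fun, Fintype.card_prod, ZMod.card]
    ring
  · intro i j
    apply Aff.ext
    · funext r
      rw [comm_v, comm_v, toAdd_ofAdd, toAdd_ofAdd, ww_eq, ww_eq]
    · rw [comm_q, comm_q]

end Wr

end Pool.Agent.V1128.Cyc
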