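import Mathlib
import Pool.Agent.V1128.Cyc.Wr2

set_option autoImplicit false

/-!
The pairs `(G, θ)` are not 1-cyclotomic.
-/

namespace Pool.Agent.V1128.Cyc

open scoped commutatorElement
open Pool.Agent.V1128.Quat

variable {p : ℕ} [hp : Fact p.Prime]

theorem conj_v (ℓ u : Aff (Fn p) (QQ p)) (hu : u.q = 1) :
    (ℓ * u * ℓ⁻¹).v 0 = u.v ℓ.q.toAdd := by
  simp only [mul_v, mul_q, inv_v, add_apply', smul_apply, neg_apply', hu, mul_one, smul_neg, zero_add]
  rw [toAdd_inv, add_neg_cancel]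
  ring

theorem not_cyc {G : Type} [Group G] [TopologicalSpace G] [IsTopologicalGroup G]
    {d : ℕ} {x y : Fin d → G} (hG : Good p x y) (hd : 3 ≤ d) {θ : G →* ℤ_[p]ˣ} (hθ : Continuous θ)
    (hcyc : Cyclotomic θ) : False := by
  obtain ⟨Ψ, h1, h2, h3⟩ := exists_wr hG
  let Λ : G →* QQ p := lin.comp Ψ
  have hΛ : ∀ g, Λ g = (Ψ g).q := fun _ => rfl
  let U : Subgroup G := Λ.ker
  have hU : IsOpen (U : Set G) := by
    have h4 : IsLocallyConstant Λ := h1.comp lin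
    exact h4.isOpen_fiber 1
  have hUq : ∀ {g : G}, g ∈ U → (Ψ g).q = 1 := fun hg => hg
  let κ : ZMod p →+* ZMod (p ^ 1) := ZMod.castHom (by rw [pow_one]) (ZMod (p ^ 1))
  have hθ1 : ∀ g, θ g = 1 := theta_one hG hθ hcyc (by omega)
  have hact : ∀ n g, act θ n g = 1 := by
    intro n g
    rw [act, hθ1]
    simp
  obtain ⟨c', ⟨-, h5⟩, e, h6⟩ := hcyc U hU 2 (by omega) (fun g => κ ((Ψ g).v 0))
    ⟨by
      have h7 : IsLocallyConstant (fun g : G => κ ((Ψ g).v 0)) := h1.comp fun a => κ (a.v 0)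
      exact h7.comp_continuous continuous_subtype_val, fun g h => by
      rw [hact, one_mul, ← map_add]
      simp only [Subgroup.coe_mul, map_mul, mul_v]
      rw [hUq g.2, one_smul, add_apply']⟩
  simp only [hact, one_mul, sub_self, add_zero] at h5 h6
  classical
  let D : G → ZMod (p ^ 2) := fun g => if h : g ∈ U then c' ⟨g, h⟩ else 0
  have hD1 : ∀ g h, g ∈ U → h ∈ U → D (g * h) = D g + D h := by
    intro g h hg hh
    simp only [D, dif_pos hg, dif_pos hh, dif_pos (mul_mem hg hh)]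
    exact h5 ⟨g, hg⟩ ⟨h, hh⟩
  have hD2 : ∀ g, g ∈ U → ZMod.castHom (pow_dvd_pow p (show 1 ≤ 2 by omega)) (ZMod (p ^ 1)) (D g) =
      κ ((Ψ g).v 0) := by
    intro g hg
    simp only [D, dif_pos hg]
    exact (h6 ⟨g, hg⟩).symm
  have hD0 : D 1 = 0 := by
    have := hD1 1 1 (one_mem _) (one_mem _)
    rw [mul_one] at this
    exact left_eq_add.mp this
  have hDinv : ∀ g, g ∈ U → D g⁻¹ = - D g := by
    intro g hg
    have := hD1 g g⁻¹ hg (inv_mem hg)
    rw [mul_inv_cancel, hD0] at this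
    exact (neg_eq_of_add_eq_zero_right this.symm).symm
  have hn : U.Normal := inferInstance
  -- conjugation depends only on the class
  have hconj : ∀ ℓ ℓ' u, u ∈ U → Λ ℓ = Λ ℓ' → D (ℓ * u * ℓ⁻¹) = D (ℓ' * u * ℓ'⁻¹) := by
    intro ℓ ℓ' u hu hl
    have h7 : ℓ' * ℓ⁻¹ ∈ U := by
      change Λ _ = 1
      rw [map_mul, map_inv, hl, mul_inv_cancel]
    have h8 : ℓ' * u * ℓ'⁻¹ = (ℓ' * ℓ⁻¹) * (ℓ * u * ℓ⁻¹) * (ℓ' * ℓ⁻¹)⁻¹ := by group
    have h9 : ℓ * u * ℓ⁻¹ ∈ U := hn.conj_mem u hu ℓ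
    rw [h8, hD1 _ _ (mul_mem h7 h9) (inv_mem h7), hD1 _ _ h7 h9, hDinv _ h7]
    ring
  let i0 : Fin d := ⟨0, by omega⟩
  let i1 : Fin d := ⟨1, by omega⟩
  let i2 : Fin d := ⟨2, by omega⟩
  let L : ZMod p × ZMod p → G := fun q => x i0 ^ q.1.val * x i1 ^ q.2.val
  have hL : ∀ q, Λ (L q) = Multiplicative.ofAdd q := by
    intro q
    have hx0 : Λ (x i0) = Multiplicative.ofAdd (1, 0) := by
      rw [hΛ, h2]
      simp [xb, i0]
    have hx1 : Λ (x i1) = Multiplicative.ofAdd (0, 1) := by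
      rw [hΛ, h2]
      simp [xb, i1]
    rw [map_mul, map_pow, map_pow, hx0, hx1, ← ofAdd_nsmul, ← ofAdd_nsmul, ← ofAdd_add]
    congr 1
    ext
    · simp
    · simp
  have hyU : ∀ i, y i ∈ U := by
    intro i
    change Λ _ = 1
    rw [hΛ, h3]
  let Y : Fin d → ZMod p × ZMod p → ZMod (p ^ 2) := fun i q => D (L q * y i * (L q)⁻¹)
  let F : ZMod p × ZMod p → ZMod (p ^ 2) := fun q => D (L q * ⁅x i0, y i0⁆ * (L q)⁻¹)
  have hF : ∀ i q, F q = Y i (q + xb p i) - Y i q := by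
    intro i q
    simp only [F, Y]
    rw [hG.rel i0 i]
    have h7 : L q * ⁅x i, y i⁆ * (L q)⁻¹ = ((L q * x i) * y i * (L q * x i)⁻¹) * (L q * y i * (L q)⁻¹)⁻¹ := by
      rw [commutatorElement_def]
      group
    rw [h7, hD1 _ _ (hn.conj_mem _ (hyU i) _) (inv_mem (hn.conj_mem _ (hyU i) _)),
      hDinv _ (hn.conj_mem _ (hyU i) _), hconj (L q * x i) (L (q + xb p i)) _ (hyU i)]
    · ring
    · rw [map_mul, hL, hL, hΛ, h2, ← ofAdd_add]
  have h8 := identity F (Y i0) (Y i1) (Y i2)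
    (fun q => by
      have := hF i0 q
      simpa [xb, i0] using this)
    (fun q => by
      have := hF i1 q
      simpa [xb, i1] using this)
    (fun q => by
      have := hF i2 q
      simpa [xb, i2] using this)
  have hcU : ⁅x i0, y i0⁆ ∈ U := by
    change Λ _ = 1
    rw [map_commutatorElement]
    exact commutatorElement_eq_one_iff_mul_comm.mpr (mul_comm _ _)
  have h9 : ∀ q, ZMod.castHom (pow_dvd_pow p (show 1 ≤ 2 by omega)) (ZMod (p ^ 1)) (F q) =
      κ (q.1 ^ (p - 2)) := by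
    intro q
    rw [hD2 _ (hn.conj_mem _ hcU _), map_mul, map_mul, map_inv, conj_v _ _ (hUq hcU), ← hΛ, hL,
      map_commutatorElement, h2, h3, comm_v]
    congr 1
    exact ww_eq _ _
  have h10 : ZMod.castHom (pow_dvd_pow p (show 1 ≤ 2 by omega)) (ZMod (p ^ 1))
      (∑ q : ZMod p × ZMod p, (if q.1.val < q.2.val then F q else 0)) = 0 := by
    obtain ⟨z, hz⟩ := ZMod.intCast_surjective (∑ q : ZMod p × ZMod p, (if q.1.val < q.2.val then F q else 0))
    rw [← hz] at h8 ⊢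
    have h11 : ((p * z : ℤ) : ZMod (p ^ 2)) = 0 := by
      push_cast
      exact h8
    rw [ZMod.intCast_zmod_eq_zero_iff_dvd] at h11
    rw [map_intCast, ZMod.intCast_zmod_eq_zero_iff_dvd]
    push_cast at h11 ⊢
    rw [pow_one]
    rw [pow_two] at h11
    exact Int.dvd_of_mul_dvd_mul_left (by exact_mod_cast hp.1.ne_zero) h11
  rw [map_sum] at h10
  have h12 : ∀ q : ZMod p × ZMod p, ZMod.castHom (pow_dvd_pow p (show 1 ≤ 2 by omega)) (ZMod (p ^ 1))
      (if q.1.val < q.2.val then F q else 0) = κ (if q.1.val < q.2.val then q.1 ^ (p - 2) else 0) := by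
    intro q
    split_ifs
    · exact h9 q
    · rw [map_zero, map_zero]
  simp only [h12, ← map_sum, sum_one, map_one] at h10
  have _ : Nontrivial (ZMod (p ^ 1)) := by
    have : Fact (1 < p ^ 1) := ⟨by rw [pow_one]; exact hp.1.one_lt⟩
    infer_instance
  exact one_ne_zero h10

end Pool.Agent.V1128.Cyc
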