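import Mathlib
import Pool.Agent.V1128.Cyc.Fin

set_option autoImplicit false

/-!
The chain of Demushkin groups.
-/

namespace Pool.Agent.V1128.Cyc

open scoped commutatorElement

/-- The relators of the chain of Demushkin groups on the generators `x_i` (`(i, false)`) and `y_i`
(`(i, true)`), `i : Fin d`: the words `[x_i, y_i][x_{i+1}, y_{i+1}]⁻¹`. -/
def chainRel (d : ℕ) : Set (FreeGroup (Fin d × Bool)) :=
  {r | ∃ i j : Fin d, (i : ℕ) + 1 = j ∧
    r = ⁅FreeGroup.of (i, false), FreeGroup.of (i, true)⁆ * ⁅FreeGroup.of (j, false), FreeGroup.of (j, true)⁆⁻¹}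

theorem chain_eq {H : Type} {d : ℕ} (f : Fin d → H)
    (h : ∀ i j : Fin d, (i : ℕ) + 1 = j → f i = f j) (i j : Fin d) : f i = f j := by
  have key : ∀ (i : ℕ) (hi : i < d), f ⟨i, hi⟩ = f ⟨0, by omega⟩ := by
    intro i
    induction i with
    | zero => intro hi; rfl
    | succ i ih =>
      intro hi
      rw [← h ⟨i, by omega⟩ ⟨i + 1, hi⟩ rfl]
      exact ih _
  rw [show f i = f ⟨i.1, i.2⟩ from rfl, show f j = f ⟨j.1, j.2⟩ from rfl, key, key j.1]

variable (p : ℕ) [hp : Fact p.Prime] (d : ℕ)

/-- The generators `x_i`. -/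
def gx (i : Fin d) : ProPPres p (Fin d × Bool) (chainRel d) := emb (FreeGroup.of (i, false))

/-- The generators `y_i`. -/
def gy (i : Fin d) : ProPPres p (Fin d × Bool) (chainRel d) := emb (FreeGroup.of (i, true))

theorem good : Good p (gx p d) (gy p d) where
  dense := by
    have h1 : (Subgroup.closure (Set.range (gx p d) ∪ Set.range (gy p d)) :
        Subgroup (ProPPres p (Fin d × Bool) (chainRel d))) = (emb : FreeGroup (Fin d × Bool) →* _).range := by
      rw [MonoidHom.range_eq_map, ← FreeGroup.closure_range_of, MonoidHom.map_closure]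
      congr 1
      ext z
      constructor
      · rintro (⟨i, rfl⟩ | ⟨i, rfl⟩)
        · exact ⟨_, ⟨(i, false), rfl⟩, rfl⟩
        · exact ⟨_, ⟨(i, true), rfl⟩, rfl⟩
      · rintro ⟨_, ⟨⟨i, b⟩, rfl⟩, rfl⟩
        cases b
        · left; exact ⟨i, rfl⟩
        · right; exact ⟨i, rfl⟩
    rw [h1]
    exact emb_dense
  rel := by
    apply chain_eq (fun i => ⁅gx p d i, gy p d i⁆)
    intro i j h
    have h1 := emb_rel (p := p) (R := chainRel d) ⟨i, j, h, rfl⟩
    rw [map_mul, map_inv, mul_inv_eq_one, map_commutatorElement, map_commutatorElement] at h1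
    exact h1
  pow := fun V hV g => pow_mem_open hV g
  ext := by
    intro H _ _ hH a b hab
    let φ : FreeGroup (Fin d × Bool) →* H := FreeGroup.lift fun z => if z.2 then b z.1 else a z.1
    obtain ⟨Φ, h1, h2⟩ := extend (R := chainRel d) hp.1 hH φ (by
      rintro r ⟨i, j, h, rfl⟩
      rw [map_mul, map_inv, mul_inv_eq_one, map_commutatorElement, map_commutatorElement]
      simpa [φ] using hab _ _)
    refine ⟨Φ, h1, fun i => ?_, fun i => ?_⟩
    · rw [gx, h2]
      simp [φ]
    · rw [gy, h2]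
      simp [φ]

/-- The pro-`p` group `G` of the problem. -/
def Chain : Type := ProPPres p (Fin d × Bool) (chainRel d)

instance instGroupChain : Group (Chain p d) := Subgroup.toGroup (ProPPres p (Fin d × Bool) (chainRel d))

instance instTopChain : TopologicalSpace (Chain p d) :=
  instTopologicalSpaceSubtype (p := fun g => g ∈ ProPPres p (Fin d × Bool) (chainRel d))

/-- `G` is 1-cyclotomic: it has an orientation `θ` such that `(G, θ)` is 1-cyclotomic. -/
def OneCyclotomic (G : Type) [Group G] [TopologicalSpace G] : Prop :=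
  ∃ θ : G →* ℤ_[p]ˣ, Continuous θ ∧ Cyclotomic θ

theorem main (hd : 3 ≤ d) : ¬ OneCyclotomic p (Chain p d) := by
  rintro ⟨θ, hθ, hcyc⟩
  exact not_cyc (G := ProPPres p (Fin d × Bool) (chainRel d)) (good p d) hd hθ hcyc

end Pool.Agent.V1128.Cyc
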